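import Pool.Agent.R782.Bal.WtLnk

/-!
# The flag complex inequality with Coxeter edge weights for colourwise barycentric subdivisions

Let `X` be a finite simplicial complex the vertices of which are coloured by `k` colours such that each
simplex with all vertices of the colour `c` has at most `2 a c` vertices. The graph `cs X col` has the
nonempty monochromatic simplices of `X` as vertices; two of them are adjacent if their union is a simplex
of `X` and, if they have the same colour, one is contained in the other. Its flag complex `S` is the
colourwise barycentric subdivision of `X`; with one colour it is the barycentric subdivision.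

`HSph n G`: the flag complex of `G` is a real homology sphere and real homology manifold of dimension
`n - 1`. `Pool.Agent.Y131.KS.HSph K n`: the same for the complex `K` over the field with two elements.
Both hold for the generalized homology spheres of the problem.

The weights `w` and the numbers `N σ` have the properties `Orders` of the orders of the groups `W_σ`:
(1) `N ∅ = 1`, (2) `N {v} = 2`, (3) `N e = 2 w e` for the edges `e`, (4) `N (A ∪ B) = N A * N B` if
`A ∪ B` is a face and all edges between `A` and `B` have weight `2`, (5) for each face `T` with at least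
three vertices which is connected by edges of weight at least `3`, the sum of the
`(-1/2)^|T \ U| / N U`, `U ⊆ T`, is zero if `|T|` is odd, and has the sign `(-1)^j`, or is zero, if
`|T| = 2 j`. The sum in (5) is the Charney-Davis quantity of the Coxeter complex of `W_T` divided by the
order of `W_T`. `omegaN G N` is the weighted quantity `∑ (-1)^|T| / N T` over the cliques `T` of `G`, and
`chiW G` the right-angled quantity `∑ (-1/2)^|T|`.
-/

set_option autoImplicit false

namespace Pool.Agent.Results.MP_375bfa_co.WeightedColoured

open Finset Pool.Agent.W907.SG Pool.Agent.R782.Bal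
open Pool.Agent.TH652.Above (HSph)
open Pool.Agent.R703.CW (Orders omegaN Heavy)

/-- The flag complex of `G` is isomorphic to a subcomplex of a simplicial complex `K` of dimension at most
`n` which is a homology sphere (and homology manifold) over the field with two elements. This holds if the
flag complex of `G` itself is such a homology sphere, of dimension `n - 1`. -/
def Mod2 {V : Type} (n : ℕ) (G : SimpleGraph V) : Prop :=
  ∃ (N n' : ℕ) (K : Finset (Finset (Fin N))) (f : V ↪ Fin N), n' ≤ n + 1 ∧ Pool.Agent.Y131.KS.HSph K n' ∧
    ∀ T : Finset V, G.IsClique (T : Set V) → T.map f ∈ K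

/-- The number of the colours `c` such that `T` has an odd number of vertices of the colour `c` (`mc σ` is
the colour of the vertices of `σ`). -/
noncomputable def oddColours {N k : ℕ} {X : Finset (Finset (Fin N))} {col : Fin N → Fin k}
    (T : Finset (MF X col)) : ℕ :=
  ∑ c : Fin k, (T.filter (fun σ => mc σ = c)).card % 2

theorem odd_eq {N k : ℕ} {X : Finset (Finset (Fin N))} {col : Fin N → Fin k} (T : Finset (MF X col)) :
    oddColours T = ∑ c : Fin k, tcol T c % 2 :=
  Finset.sum_congr rfl fun c _ => by rw [tcol]

/-- few colours: an even number which is at most three -/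
theorem odd_le {N k : ℕ} {X : Finset (Finset (Fin N))} {col : Fin N → Fin k} (hk : k ≤ 3)
    (T : Finset (MF X col)) (hT : Even T.card) : oddColours T ≤ 2 := by
  rw [odd_eq]
  have h1 : ∑ c : Fin k, tcol T c % 2 ≤ ∑ _c : Fin k, 1 := Finset.sum_le_sum fun c _ => by omega
  rw [Finset.sum_const, Finset.card_univ, Fintype.card_fin, smul_eq_mul, mul_one] at h1
  have h2 : (∑ c : Fin k, tcol T c % 2) % 2 = (∑ c : Fin k, tcol T c) % 2 := by
    rw [Finset.sum_nat_mod, Finset.sum_nat_mod (f := fun c => tcol T c)]
    simp
  rw [sum_tcol] at h2
  have h3 : T.card % 2 = 0 := Nat.even_iff.1 hT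
  omega

/-- Let the colourwise barycentric subdivision `S = cs X col` be a flag homology sphere of dimension
`2 m - 1`, where each simplex of `X` with all vertices of the colour `c` has at most `2 a c` vertices, and
let `w` be edge weights of `S` and `M` the orders of the Coxeter groups.

(1) Suppose that `∑ a c ≤ m + 1` and that each nonempty face `T` of `S` with an even number of vertices, each
of which lies in an edge of weight at least three in `T`, satisfies `2 ∑ a c + oddColours T ≤ 2 m + 2` or has
a subset of odd cardinality which is joined to the rest of `T` by edges of weight two only. Then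
`0 ≤ (-1)^m χ ≤ (-1)^m ω(S)`, where `χ` is the right-angled quantity of `S`.

(2) If `∑ a c ≤ m` (that is, each facet of `X` has exactly `2 a c` vertices of the colour `c`) and there are
at most three colours, then `0 ≤ (-1)^m χ ≤ (-1)^m ω(S)` for all edge weights. In particular this holds for
all edge weights on the barycentric subdivision of a triangulated sphere of dimension `2 m - 1`. -/
theorem result {N k m : ℕ} {X : Finset (Finset (Fin N))} {col : Fin N → Fin k} (a : Fin k → ℕ)
    (hX : ∀ σ ∈ X, ∀ τ : Finset (Fin N), τ ⊆ σ → τ ∈ X)
    (ha : ∀ σ ∈ X, ∀ c, (∀ v ∈ σ, col v = c) → σ.card ≤ 2 * a c)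
    [Fintype (MF X col)] [LinearOrder (MF X col)] (hS : HSph (2 * m) (cs X col))
    (hS2 : Mod2 (2 * m) (cs X col))
    (w : Finset (MF X col) → ℕ) (M : Finset (MF X col) → ℚ) (hM : Orders (cs X col) w M) :
    (∑ c, a c ≤ m + 1 →
      (∀ T : Finset (MF X col), (cs X col).IsClique (T : Set (MF X col)) → Even T.card → Heavy w T →
        T.Nonempty → 2 * ∑ c, a c + oddColours T ≤ 2 * m + 2 ∨
          ∃ A ⊆ T, Odd A.card ∧ ∀ x ∈ A, ∀ y ∈ T, y ∉ A → w {x, y} = 2) →
      0 ≤ (-1) ^ m * chiW (cs X col) ∧
        (-1) ^ m * chiW (cs X col) ≤ (-1) ^ m * omegaN (cs X col) M) ∧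
    (∑ c, a c ≤ m → k ≤ 3 →
      0 ≤ (-1) ^ m * chiW (cs X col) ∧
        (-1) ^ m * chiW (cs X col) ≤ (-1) ^ m * omegaN (cs X col) M) := by
  obtain ⟨N', n', K, f, hn, hK, hf⟩ := hS2
  have h1 : ∑ c, a c ≤ m + 1 →
      (∀ T : Finset (MF X col), (cs X col).IsClique (T : Set (MF X col)) → Even T.card → Heavy w T →
        T.Nonempty → 2 * ∑ c, a c + oddColours T ≤ 2 * m + 2 ∨
          ∃ A ⊆ T, Odd A.card ∧ ∀ x ∈ A, ∀ y ∈ T, y ∉ A → w {x, y} = 2) →
      0 ≤ (-1) ^ m * chiW (cs X col) ∧
        (-1) ^ m * chiW (cs X col) ≤ (-1) ^ m * omegaN (cs X col) M := by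
    intro hs hc
    refine ⟨ra_cs hX a ha hS K f hn hK hf hs, weighted_cs hX a ha hS K f hn hK hf w M hM ?_⟩
    intro T hT he hh hne
    rcases hc T hT he hh hne with h | h
    · left
      rw [odd_eq] at h
      exact h
    · exact Or.inr h
  refine ⟨h1, fun hs hk => h1 (by omega) fun T _ he _ _ => Or.inl ?_⟩
  have h2 := odd_le hk T he
  omega

end Pool.Agent.Results.MP_375bfa_co.WeightedColoured
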