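import Mathlib
import Pool.Agent.U297.LG.Weighted

/-!
# The flag complex inequality with Coxeter edge weights for spheres with a `γ`-polynomial of small degree

Let `S` be the flag complex of the finite graph `G`, a real homology manifold with the real homology of the
`(2 m - 1)`-sphere (`HSph (2 * m) G`), with the `γ`-numbers `c_i`, `i ≤ m`. The weights `w` and the numbers `N σ`
have the properties `Orders` of the orders of the groups `W_σ` (library `R703.CW`): (1) `N ∅ = 1`, (2) `N {v} = 2`,
(3) `N e = 2 w e` for the edges `e`, (4) `N (A ∪ B) = N A * N B` if `A ∪ B` is a face and all edges between `A` and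
`B` have weight `2`, (5) for each face `T` with at least three vertices which is connected by edges of weight at
least `3`, the sum of the `(-1/2)^|T \ U| / N U`, `U ⊆ T`, is zero if `|T|` is odd, and has the sign `(-1)^j`, or is
zero, if `|T| = 2 j`. `omegaN G N` is the weighted quantity `∑ (-1)^|T| / N T` over the cliques `T` of `G`, `chiW G`
the right-angled one, `∑ (-1/2)^|T|`.

(1) Without any hypothesis on the links, for all `m`: if `c_i = 0` for all `i ≥ 2` then
`(-1)^m ω ≥ (-1)^m χ ≥ 0` for all Coxeter weights; and `ω = 0` if each face which is covered by its edges of weight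
at least three has at most `2 m - 4` vertices.
(2) The same for `c_i = 0` for all `i ≥ l`, if the `ℓ²`-homology of the right-angled Coxeter groups of the links of
dimension at most `2 l - 1` vanishes above the middle; `ω = 0` if each face which is covered by its edges of weight
at least three has at most `2 m - 2 l` vertices. (3) In both cases `(-1)^m ω` is monotone in the weights, as long as
the edges of weight at least three in each face are pairwise disjoint (groups `W_T` products of dihedral groups).
-/

set_option autoImplicit false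

namespace Pool.Agent.Results.MP_375bfa_co.WeightedSmallGammaDegree

open Pool.Agent.W907.SG Pool.Agent.W907.SM Pool.Agent.TH652.Above Pool.Agent.Y132.SI Pool.Agent.N13.EU
open Pool.Agent.R703.CW Pool.Agent.U297.LG
open Y365.FS (ordM)
open Polynomial (X C)

/-- `c 0, c 1, …, c (n / 2)` are the `γ`-numbers of the flag complex of `G`, of dimension `n - 1`: the `f`-polynomial
`∑ X ^ |T|` (over all simplices `T`, the empty one included) is `∑ c i X ^ i (1 + X) ^ i (1 + 2 X) ^ (n - 2 i)`. -/
def IsGammaVector (n : ℕ) {V : Type} [Fintype V] (G : SimpleGraph V) (c : ℕ → ℚ) : Prop :=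
  fpoly G = ∑ i ∈ Finset.range (n / 2 + 1), C (c i) * (X ^ i * (1 + X) ^ i * (1 + 2 * X) ^ (n - 2 * i))

/-- The `ℓ²`-homology of the right-angled Coxeter groups of the links `A` of the simplices `T` with at least `n - r`
vertices (these links have dimension at most `r - 1`) vanishes above the middle. -/
def LinksVanish (r n : ℕ) {V : Type} [Fintype V] [LinearOrder V] (G : SimpleGraph V) : Prop :=
  ∀ T A : Finset V, G.IsClique (T : Set V) → (∀ v, v ∈ A ↔ ∀ t ∈ T, G.Adj v t) → n ≤ T.card + r →
    ∀ i : ℕ, n < 2 * i + T.card → L2Van (G.induce (A : Set V)) i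

/-- The weighted inequality, the comparison with the right-angled quantity, the vanishing if the heavy faces have at
most `2 m - 2 l` vertices, and the monotonicity in the weights. -/
def Conclusion (m l : ℕ) {V : Type} [Fintype V] [LinearOrder V] (G : SimpleGraph V) : Prop :=
  (∀ (w : Finset V → ℕ) (N : Finset V → ℚ), Orders G w N →
    0 ≤ (-1 : ℚ) ^ m * chiW G ∧ (-1 : ℚ) ^ m * chiW G ≤ (-1 : ℚ) ^ m * omegaN G N ∧
    ((∀ T : Finset V, G.IsClique (T : Set V) → (∀ a ∈ T, ∃ b ∈ T, b ≠ a ∧ w {a, b} ≠ 2) →
      T.card + 2 * l ≤ 2 * m) → omegaN G N = 0)) ∧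
  (∀ w w' : Finset V → ℕ, (∀ e, 2 ≤ w e) → (∀ e, w e ≤ w' e) →
    (∀ u v z, G.Adj u v → G.Adj u z → G.Adj v z → w' {u, v} = 2 ∨ w' {u, z} = 2) →
    (-1 : ℚ) ^ m * omegaN G (ordM w) ≤ (-1 : ℚ) ^ m * omegaN G (ordM w'))

theorem conclude {V : Type} [Fintype V] [LinearOrder V] {G : SimpleGraph V} {m l : ℕ} {c : ℕ → ℚ}
    (hS : HSph (2 * m) G) (hl : 1 ≤ l) (hL : LinksUpTo (2 * l) (2 * m) G) (hc : IsGammaVector (2 * m) G c)
    (h0 : ∀ i, l ≤ i → i ≤ m → c i = 0) : Conclusion m l G := by
  have h0' : ∀ i, l ≤ i → i ≤ 2 * m / 2 → c i = 0 := fun i h1 h2 => h0 i h1 (by omega)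
  have hH := hered_small hS hl hL hc h0'
  have hv := (small hS hl hL hc h0').1
  refine ⟨fun w N hN => ?_, fun w w' hw hww hmat => mono_hered hS hH w w' hw hww hmat⟩
  obtain ⟨h1, h2⟩ := weighted_hered hS hH w N hN
  exact ⟨h2, h1, fun h => omega_zero hS hv w N hN h⟩

/-- **Result.** (1) `c_i = 0` for all `i ≥ 2`, no other hypothesis; (2) `c_i = 0` for all `i ≥ l`, given the links of
dimension at most `2 l - 1`, or given the vanishing of the `ℓ²`-homology outside the middle for all flag homology
spheres of dimension less than `2 l`. -/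
theorem result :
    (∀ (m : ℕ) (V : Type) [Fintype V] [LinearOrder V] (G : SimpleGraph V) (c : ℕ → ℚ), HSph (2 * m) G →
      IsGammaVector (2 * m) G c → (∀ i, 2 ≤ i → i ≤ m → c i = 0) → Conclusion m 2 G) ∧
    (∀ (m l : ℕ) (V : Type) [Fintype V] [LinearOrder V] (G : SimpleGraph V) (c : ℕ → ℚ), HSph (2 * m) G →
      IsGammaVector (2 * m) G c → 1 ≤ l → (∀ i, l ≤ i → i ≤ m → c i = 0) →
        (LinksVanish (2 * l) (2 * m) G ∨
          ∀ n ≤ 2 * l, ∀ (U : Type) [Fintype U] [LinearOrder U] (H : SimpleGraph U), HSph n H →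
            ∀ i : ℕ, 2 * i ≠ n → L2Van H i) → Conclusion m l G) := by
  refine ⟨fun m V _ _ G c hS hc h0 => conclude hS (by norm_num) (linksUpTo_four hS) hc h0, ?_⟩
  intro m l V _ _ G c hS hc hl h0 hL
  refine conclude hS hl ?_ hc h0
  rcases hL with h | h
  · classical
    intro T hT hr i hi
    obtain ⟨A, hA⟩ : ∃ A : Finset V, (A : Set V) = lk G T := ⟨(Set.toFinite (lk G T)).toFinset, by simp⟩
    have h1 := Pool.Agent.N13.EU.lv_of (h T A hT (fun v => by
      rw [← Finset.mem_coe, hA]
      rfl) hr i hi)
    rwa [hA] at h1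
  · exact linksUpTo_of_singer hS h

end Pool.Agent.Results.MP_375bfa_co.WeightedSmallGammaDegree
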