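import Pool.Agent.U410.ES.Wt

/-!
# The flag complex inequality with Coxeter edge weights for flag spheres with small links

`HSph n G`: the flag complex of the finite graph `G` is a real homology sphere and real homology manifold of
dimension `n - 1`. `omegaN G N` is the weighted quantity `∑ (-1)^|T| / N T` over the cliques `T` of `G`, and
`chiW G` the right-angled quantity `∑ (-1/2)^|T|`.

The weights `w` and the numbers `N σ` have the properties `Orders` of the orders of the groups `W_σ`:
(1) `N ∅ = 1`, (2) `N {v} = 2`, (3) `N e = 2 w e` for the edges `e`, (4) `N (A ∪ B) = N A * N B` if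
`A ∪ B` is a face and all edges between `A` and `B` have weight `2`, (5) for each face `T` with at least
three vertices which is connected by edges of weight at least `3`, the sum of the
`(-1/2)^|T \ U| / N U`, `U ⊆ T`, is zero if `|T|` is odd, and has the sign `(-1)^j`, or is zero, if
`|T| = 2 j`. If the edges of weight at least three in each clique are pairwise disjoint, then `W_σ` is a
product of dihedral groups and groups of order two and its order is `ordM w σ = 2^|σ| ∏ (w e / 2)`.

The class `Sm` (`Pool/Agent/U410/ES/Sm.lean`) contains the flag spheres of dimension at most three, the spheres of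
dimension `e - 1` with at most `3 e - 1` vertices, their joins, the spheres of odd dimension the vertex links of which
are in the class, and the spheres of even dimension the edge links of which are in the class if the non-neighbours
of some vertex span a tree.

We prove the inequality for all weights if the links of the vertices of `S` are in the class `Sm`; there is no bound
for the dimension or for the number of vertices of `S`. The comparison with the right-angled quantity and the
monotonicity in the weights need this only for the links of the nonempty heavy faces with at most `2 m - 6` vertices;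
in dimension five they hold for all weights and all flag homology spheres.
-/

set_option autoImplicit false

namespace Pool.Agent.Results.MP_375bfa_co.WeightedSmallLinks

open Pool.Agent.W907.SG
open Pool.Agent.W497.FS (lk lkF)
open Pool.Agent.TH652.Above (HSph)
open Pool.Agent.R703.CW (Orders omegaN Heavy)
open Pool.Agent.U410.ES (Sm ge_sm mono_sm chi_sm heavy_of_links)
open Y365.FS (ordM)

/-- The links of the nonempty faces `T` with an even number of vertices, at most `2 m - 6`, all of whose vertices lie
in edges of weight at least three in `T`, belong to the class `Sm`. -/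
def HeavyLinks {V : Type} [Fintype V] [LinearOrder V] (G : SimpleGraph V) (m : ℕ) (w : Finset V → ℕ) : Prop :=
  ∀ T : Finset V, G.IsClique (T : Set V) → Even T.card → Heavy w T → T.Nonempty → T.card + 6 ≤ 2 * m →
    Sm G (2 * m - T.card) (lkF G Finset.univ T)

/-- Let the flag complex `S` of `G` be a homology sphere of dimension `2 m - 1`.

(1) If the links of all the vertices of `S` are in the class `Sm` then `0 ≤ (-1)^m χ(S) ≤ (-1)^m ω(S)` for all weights.

(2) If the links of the heavy faces for the weights `w` with at most `2 m - 6` vertices are in the class `Sm`, then
`(-1)^m χ(S) ≤ (-1)^m ω(S)`; there is no condition for `m ≤ 3`.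

(3) If `w ≤ w'` are weights such that the edges of weight `w' ≥ 3` in each clique are pairwise disjoint and
the links of the heavy faces for `w'` with at most `2 m - 6` vertices are in the class `Sm`, then
`(-1)^m ω_w(S) ≤ (-1)^m ω_w'(S)`. -/
theorem result {m : ℕ} {V : Type} [Fintype V] [LinearOrder V] {G : SimpleGraph V}
    (hS : HSph (2 * m) G) :
    ((∀ v : V, Sm G (2 * m - 1) (lk G Finset.univ v)) →
      ∀ (w : Finset V → ℕ) (N : Finset V → ℚ), Orders G w N →
        0 ≤ (-1) ^ m * chiW G ∧ (-1) ^ m * chiW G ≤ (-1) ^ m * omegaN G N) ∧
    (∀ (w : Finset V → ℕ) (N : Finset V → ℚ), Orders G w N → HeavyLinks G m w →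
      (-1) ^ m * chiW G ≤ (-1) ^ m * omegaN G N) ∧
    ∀ w w' : Finset V → ℕ, (∀ e, 2 ≤ w e) → (∀ e, w e ≤ w' e) →
      (∀ u v z, G.Adj u v → G.Adj u z → G.Adj v z → w' {u, v} = 2 ∨ w' {u, z} = 2) →
      HeavyLinks G m w' →
      (-1) ^ m * omegaN G (ordM w) ≤ (-1) ^ m * omegaN G (ordM w') :=
  ⟨fun h w N hN => ⟨chi_sm hS h, ge_sm hS w N hN (heavy_of_links h w)⟩,
    fun w N hN hL => ge_sm hS w N hN hL,
    fun w w' hw hww hmat hL => mono_sm hS w w' hw hww hmat hL⟩

end Pool.Agent.Results.MP_375bfa_co.WeightedSmallLinks
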