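import Pool.Agent.R703.CW.Main

/-!
# The flag complex inequality with Coxeter edge weights: comparison with the right-angled case and
monotonicity in the weights

`HSph n G`: the flag complex of the finite graph `G` is a real homology sphere and real homology manifold of
dimension `n - 1`. `omegaN G N` is the weighted quantity `∑ (-1)^|T| / N T` over the cliques `T` of `G`, and
`chiW G` the right-angled quantity `∑ (-1/2)^|T|`.

The weights `w` and the numbers `N σ` have the properties `Orders` of the orders of the groups `W_σ`:
(1) `N ∅ = 1`, (2) `N {v} = 2`, (3) `N e = 2 w e` for the edges `e`, (4) `N (A ∪ B) = N A * N B` if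
`A ∪ B` is a face and all edges between `A` and `B` have weight `2`, (5) for each face `T` with at least
three vertices which is connected by edges of weight at least `3`, the sum of the
`(-1/2)^|T \ U| / N U`, `U ⊆ T`, is zero if `|T|` is odd, and has the sign `(-1)^j`, or is zero, if
`|T| = 2 j`. If the edges of weight at least three in each clique are pairwise disjoint, then `W_σ` is a
product of dihedral groups and groups of order two and its order is `ordM w σ = 2^|σ| ∏ (w e / 2)`.

The class `AR n` (`Pool.Agent.R781.VS.AR`) is closed under vertex splitting (the inverse of the contraction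
of an edge in no induced 4-cycle), full subcomplexes, joins, gluing, deletion of edges and addition of
vertices with suitable links, and contains the barycentric subdivisions of all triangulated
`(n-1)`-spheres. The class `Cls` (`Pool.Agent.TH709.GG.Cls`) is the class of the starting hand-in
`CoxeterGluing`.
-/

set_option autoImplicit false

namespace Pool.Agent.Results.MP_375bfa_co.WeightedSplit

open Pool.Agent.W907.SG Pool.Agent.W907.SM Pool.Agent.R781.VS
open Pool.Agent.TH652.Above (HSph)
open Pool.Agent.TH709.GG (Cls)
open Pool.Agent.R703.CW
open Y365.FS (ordM)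

/-- The links of the nonempty even faces `T`, `|T| + 4 ≤ 2 m`, all of whose vertices lie in edges of weight
at least three in `T`, belong to the class `AR` or to the class `Cls`. -/
def LinksGood {V : Type} [Fintype V] [LinearOrder V] (G : SimpleGraph V) (m : ℕ) (w : Finset V → ℕ) : Prop :=
  ∀ T : Finset V, G.IsClique (T : Set V) → Even T.card → Heavy w T → T.Nonempty →
    T.card + 4 ≤ 2 * m → GoodLink G (2 * m) T

/-- Let the flag complex `S` of `G` be a homology sphere of dimension `2 m - 1`.

(1) If the links of the heavy faces for the weights `w` are in one of the two classes, then the weighted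
quantity is at least the right-angled quantity of the same complex, `(-1)^m χ(S) ≤ (-1)^m ω(S)`; if moreover
`S` is in one of the two classes, then `(-1)^m ω(S) ≥ 0`.

(2) If `w ≤ w'` are weights such that the edges of weight `w' ≥ 3` in each clique are pairwise disjoint and
the links of the heavy faces for `w'` are in one of the two classes, then `(-1)^m ω_w(S) ≤ (-1)^m ω_w'(S)`:
the quantity is monotone in the weights. -/
theorem result {m : ℕ} {V : Type} [Fintype V] [LinearOrder V] {G : SimpleGraph V}
    (hS : HSph (2 * m) G) :
    (∀ (w : Finset V → ℕ) (N : Finset V → ℚ), Orders G w N → LinksGood G m w →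
      (-1) ^ m * chiW G ≤ (-1) ^ m * omegaN G N ∧
      (AR (2 * m) G ∨ Cls (2 * m) V G Finset.univ → 0 ≤ (-1) ^ m * omegaN G N)) ∧
    ∀ w w' : Finset V → ℕ, (∀ e, 2 ≤ w e) → (∀ e, w e ≤ w' e) →
      (∀ u v z, G.Adj u v → G.Adj u z → G.Adj v z → w' {u, v} = 2 ∨ w' {u, z} = 2) →
      LinksGood G m w' →
      (-1) ^ m * omegaN G (ordM w) ≤ (-1) ^ m * omegaN G (ordM w') := by
  refine ⟨fun w N hN hL => ?_, fun w w' hw hww hmat hL => weighted_mono hS w w' hw hww hmat hL⟩
  have h := weighted_ge hS w N hN hL
  exact ⟨h, fun hc => (chi_nonneg hS hc).trans h⟩

end Pool.Agent.Results.MP_375bfa_co.WeightedSplit
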